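import Mathlib

set_option autoImplicit false

namespace Pool.Agent.Results.MP_053b7f_lc.NoStrategy

open Set

universe u

/-- the moves of a player in rounds `0, …, n - 1`, the latest first -/
def hist {α : Type u} (m : ℕ → α) : ℕ → List α
  | 0 => []
  | n + 1 => m n :: hist m n

/-- a set `T` splits `S` into `S ∩ T` and `S ∩ Tᶜ`; a Boolean chooses the part -/
def side {E : Type u} (b : Bool) (T : Set E) : Set E := cond b T Tᶜ

/-- The sets `S₀ ⊇ S₁ ⊇ …` of a play. `m k` is the `k`-th move of B: the part chosen and the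
split made. `σ l` is the move of A after the moves `l` of B: the part chosen (unused when `l` is
empty) and the split made. -/
def S {E : Type u} (σ : List (Bool × Set E) → Bool × Set E) (m : ℕ → Bool × Set E) : ℕ → Set E
  | 0 => univ
  | n + 1 => S σ m n ∩
      if n % 2 = 0 then side (m (n / 2)).1 (σ (hist m (n / 2))).2
      else side (σ (hist m (n / 2 + 1))).1 (m (n / 2)).2

/-- A has a winning strategy in `G(E)` -/
def AWins (E : Type u) : Prop :=
  ∃ σ : List (Bool × Set E) → Bool × Set E, ∀ m : ℕ → Bool × Set E, ⋂ n, S σ m (n + 1) = ∅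

theorem code (E : Type u) [Uncountable E] :
    ∃ (c : E → ℕ → Bool) (F : Set E), ¬ F.Countable ∧ InjOn c F := by
  obtain ⟨F, hF⟩ := Cardinal.le_mk_iff_exists_set.1
    (Cardinal.aleph_one_le_iff.2 (Cardinal.aleph0_lt_mk (α := E)))
  obtain ⟨ι⟩ : Nonempty (F ↪ (ℕ → Bool)) := by
    rw [← Cardinal.lift_mk_le', hF]
    simpa using Cardinal.aleph_one_le_continuum
  refine ⟨Function.extend Subtype.val ι fun _ _ => true, F, fun h => ?_, fun x hx y hy h => ?_⟩
  · rw [← Cardinal.le_aleph0_iff_set_countable, hF] at h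
    exact absurd h (not_le.2 Cardinal.aleph0_lt_aleph_one)
  · have h1 := Subtype.val_injective.extend_apply ι (fun _ _ => true) (⟨x, hx⟩ : F)
    have h2 := Subtype.val_injective.extend_apply ι (fun _ _ => true) (⟨y, hy⟩ : F)
    exact congrArg Subtype.val (ι.injective (h1.symm.trans (h.trans h2)))

theorem result (E : Type u) [Uncountable E] : ¬ AWins E := by
  rintro ⟨σ, hσ⟩
  obtain ⟨c, F, hF, hc⟩ := code E
  let R : Bool × ℕ → Bool × Set E := fun q => (q.1, {x | c x q.2 = true})
  let bad : List (Bool × ℕ) × Bool → Set E := fun p =>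
    {x | x ∈ F ∧ ∀ n, x ∉ side (σ (R (p.2, n) :: p.1.map R)).1 (R (p.2, n)).2}
  have hbad : ∀ p, (bad p).Subsingleton := by
    intro p x hx y hy
    refine hc hx.1 hy.1 (funext fun n => ?_)
    have h1 := hx.2 n
    have h2 := hy.2 n
    revert h1 h2
    cases (σ (R (p.2, n) :: p.1.map R)).1 <;> simp [side, R] <;> intro h1 h2 <;> rw [h1, h2]
  obtain ⟨x, hxF, hx⟩ : ∃ x ∈ F, ∀ p, x ∉ bad p := by
    by_contra h
    push Not at h
    exact hF ((countable_iUnion fun p => (hbad p).countable).mono fun x hx =>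
      mem_iUnion.2 (h x hx))
  have : ∀ l : List (Bool × ℕ), ∃ q : Bool × ℕ, x ∈ side q.1 (σ (l.map R)).2 ∧
      x ∈ side (σ (R q :: l.map R)).1 (R q).2 := by
    intro l
    obtain ⟨b, hb⟩ : ∃ b, x ∈ side b (σ (l.map R)).2 := by
      by_cases h : x ∈ (σ (l.map R)).2
      · exact ⟨true, h⟩
      · exact ⟨false, h⟩
    by_contra h
    push Not at h
    exact hx (l, b) ⟨hxF, fun n => h (b, n) hb⟩
  choose nx h1 h2 using this
  let s : ℕ → List (Bool × ℕ) := fun n => Nat.rec [] (fun _ l => nx l :: l) n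
  let m : ℕ → Bool × Set E := fun n => R (nx (s n))
  have e : ∀ n, hist m n = (s n).map R := by
    intro n
    induction n with
    | zero => rfl
    | succ n ih => rw [hist, ih]; rfl
  have key : ∀ n, x ∈ S σ m n := by
    intro n
    induction n with
    | zero => exact mem_univ x
    | succ n ih =>
      refine ⟨ih, ?_⟩
      split_ifs
      · rw [e]
        exact h1 _
      · rw [hist, e]
        exact h2 _
  exact (hσ m ▸ mem_iInter.2 fun n => key (n + 1) : x ∈ (∅ : Set E))

end Pool.Agent.Results.MP_053b7f_lc.NoStrategy
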